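import Pool.Agent.KS6_69.GT.Final

/-!
# The genus of all graphs between `K_{p,q+r}` and `K_{p,q,r}`

For `p ≥ q ≥ r`, `p ≥ 2`, `q + r ≥ 2`, every graph obtained from `K_{p,q,r}` by deleting some
(or no, or all) edges between the two smaller classes has genus `⌈(p-2)(q+r-2)/4⌉`.
-/

set_option autoImplicit false

namespace Pool.Agent.Results.MP_43c969_co.BetweenBipartiteAndTripartite

open Pool.Agent.KS6_69.GT

/-- The vertices: three classes of sizes `p`, `q`, `r`, numbered `0`, `1`, `2`. -/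
abbrev Vert (p q r : ℕ) : Type := Σ i : Fin 3, Fin (![p, q, r] i)

/-- `G` lies between `K_{p,q+r}` and `K_{p,q,r}`: the three classes are independent and every vertex of the
class of size `p` is adjacent to every vertex of the other two classes. -/
def IsBetween {p q r : ℕ} (G : SimpleGraph (Vert p q r)) : Prop :=
  (∀ u v, G.Adj u v → u.1 ≠ v.1) ∧ ∀ u v : Vert p q r, u.1 = 0 → v.1 ≠ 0 → G.Adj u v

/-- A rotation system: a permutation of the darts that permutes cyclically the darts at each vertex. -/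
def IsRotation {V : Type} (G : SimpleGraph V) (σ : Equiv.Perm G.Dart) : Prop :=
  (∀ d : G.Dart, (σ d).fst = d.fst) ∧
    ∀ d d' : G.Dart, d.fst = d'.fst → ∃ n : ℕ, (σ ^ n) d = d'

/-- The Euler characteristic `V - E + F` of the embedding given by a rotation system. -/
noncomputable def euler {V : Type} (G : SimpleGraph V) (σ : Equiv.Perm G.Dart) : ℤ :=
  (Nat.card V : ℤ) - (Nat.card G.edgeSet : ℤ) +
    (Nat.card (Quotient (Equiv.Perm.SameCycle.setoid (σ * Function.Involutive.toPerm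
      SimpleGraph.Dart.symm SimpleGraph.Dart.symm_involutive))) : ℤ)

open Classical in
lemma upper (p q r : ℕ) (hp : 2 ≤ p) (hqr : 2 ≤ q + r) (h : Emb p q r (Ft p (q + r)))
    (G : SimpleGraph (Vert p q r)) (hG : IsBetween G) :
    ∃ σ : Equiv.Perm G.Dart, IsRotation G σ ∧
      2 - 2 * ⌈((p : ℚ) - 2) * ((q : ℚ) + (r : ℚ) - 2) / 4⌉ ≤ euler G σ := by
  obtain ⟨hle, hge⟩ := hG
  obtain ⟨R, hR, hcons, hF⟩ := h
  have hsel : ∀ (b : Fin q) (c : Fin r), ∃ s : Fin p × Bool,
      (∀ a, s = (a, true) → R.ρ a (Sum.inl b) = Sum.inr c) ∧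
      (∀ a, s = (a, false) → R.ρ a (Sum.inr c) = Sum.inl b) := by
    intro b c
    obtain ⟨a, h | h⟩ := hcons b c
    · refine ⟨(a, true), ?_, ?_⟩
      · intro a' e
        have e1 : a = a' := congrArg Prod.fst e
        rw [← e1]; exact h
      · intro a' e; have := congrArg Prod.snd e; simp at this
    · refine ⟨(a, false), ?_, ?_⟩
      · intro a' e; have := congrArg Prod.snd e; simp at this
      · intro a' e
        have e1 : a = a' := congrArg Prod.fst e
        rw [← e1]; exact h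
  choose sel hsel1 hsel2 using hsel
  have hC0 := Bridge.chosenS R sel (fun b c a => hsel1 b c a) (fun b c a => hsel2 b c a)
  let opp : (Fin q ⊕ Fin r) → (Fin q ⊕ Fin r) → Prop := fun x y =>
    G.Adj (Bridge.vert p q r (Sum.inr x)) (Bridge.vert p q r (Sum.inr y))
  have hvle : ∀ u u', G.Adj (Bridge.vert p q r u) (Bridge.vert p q r u') →
      Bridge.adj Bridge.oppS u u' := fun u u' h' =>
    (Bridge.adj_vert p q r u u').1 (hle _ _ h')
  have hoppS : ∀ x y, opp x y → Bridge.oppS x y := fun x y hxy => hvle (Sum.inr x) (Sum.inr y) hxy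
  let Ch : (Fin q ⊕ Fin r) → Fin p → (Fin q ⊕ Fin r) → Prop := fun x a y =>
    Bridge.ChS sel x a y ∧ opp x y
  have hC : Bridge.Chosen R opp Ch :=
    { step := fun x a y h => hC0.step x a y h.1
      uniq := fun x a a' y h h' => hC0.uniq x a a' y h.1 h'.1
      excl := fun x a a' y h h' => hC0.excl x a a' y h.1 h'.1
      ex := fun x y h => by
        rcases hC0.ex x y (hoppS x y h) with ⟨a, ha⟩ | ⟨a, ha⟩
        · exact Or.inl ⟨a, ha, h⟩
        · exact Or.inr ⟨a, ha, G.adj_symm h⟩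
      isopp := fun x a y h => h.2
      symm := fun x y h => G.adj_symm h }
  have hbip : ∀ (a : Fin p) (x : Fin q ⊕ Fin r),
      G.Adj (Bridge.vert p q r (Sum.inl a)) (Bridge.vert p q r (Sum.inr x)) := by
    intro a x
    refine hge _ _ rfl ?_
    rcases x with b | c
    · change (1 : Fin 3) ≠ 0; decide
    · change (2 : Fin 3) ≠ 0; decide
  have hadj : ∀ v w, G.Adj v w ↔ Bridge.adj opp ((Bridge.vertE p q r).symm v)
      ((Bridge.vertE p q r).symm w) := by
    intro v w
    obtain ⟨u, rfl⟩ := (Bridge.vertE p q r).surjective v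
    obtain ⟨u', rfl⟩ := (Bridge.vertE p q r).surjective w
    rw [Equiv.symm_apply_apply, Equiv.symm_apply_apply]
    change G.Adj (Bridge.vert p q r u) (Bridge.vert p q r u') ↔ _
    rcases u with a | x <;> rcases u' with a' | x'
    · exact ⟨fun h => hvle _ _ h, fun h => h.elim⟩
    · exact ⟨fun _ => trivial, fun _ => hbip a x'⟩
    · exact ⟨fun _ => trivial, fun _ => G.adj_symm (hbip a' x)⟩
    · exact Iff.rfl
  refine ⟨Bridge.rotP hC hR G (Bridge.vertE p q r).symm hadj, ⟨?_, ?_⟩, ?_⟩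
  · intro d; rfl
  · intro d d' h
    obtain ⟨n, hn⟩ := Bridge.rot_trans hC hR G (Bridge.vertE p q r).symm hadj d d' h
    exact ⟨n, by rw [Bridge.rotP_pow]; exact hn⟩
  · -- the chords that are present
    let P : Type := {bc : Fin q × Fin r // opp (Sum.inl bc.1) (Sum.inr bc.2)}
    let pr : P → (Fin q ⊕ Fin r) × (Fin q ⊕ Fin r) := fun bc =>
      if (sel bc.1.1 bc.1.2).2 = true then (Sum.inl bc.1.1, Sum.inr bc.1.2)
      else (Sum.inr bc.1.2, Sum.inl bc.1.1)
    have hpr : Function.Injective pr := by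
      rintro ⟨⟨b, c⟩, hbc⟩ ⟨⟨b', c'⟩, hbc'⟩ h
      apply Subtype.ext
      simp only [pr] at h ⊢
      split_ifs at h <;> simp_all
    have hprC : ∀ bc, ∃ a, Ch (pr bc).1 a (pr bc).2 := by
      rintro ⟨⟨b, c⟩, hbc⟩
      simp only [pr]
      split_ifs with h
      · exact ⟨(sel b c).1, Prod.ext rfl h, hbc⟩
      · exact ⟨(sel b c).1, Prod.ext rfl (by simpa using h), G.adj_symm hbc⟩
    have key := Bridge.faces_ge hC hR G (Bridge.vertE p q r).symm hadj pr hpr hprC
    have hE : Nat.card G.edgeSet ≤ p * (q + r) + Nat.card P := by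
      let f : (Fin p × (Fin q ⊕ Fin r)) ⊕ P → G.edgeSet := fun z =>
        match z with
        | Sum.inl (a, x) => ⟨s(Bridge.vert p q r (Sum.inl a), Bridge.vert p q r (Sum.inr x)), by
            rw [SimpleGraph.mem_edgeSet]; exact hbip a x⟩
        | Sum.inr bc => ⟨s(Bridge.vert p q r (Sum.inr (Sum.inl bc.1.1)),
            Bridge.vert p q r (Sum.inr (Sum.inr bc.1.2))), by
            rw [SimpleGraph.mem_edgeSet]; exact bc.2⟩
      have hf : Function.Surjective f := by
        rintro ⟨z, hz⟩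
        induction z with
        | h u v =>
          obtain ⟨u, rfl⟩ := (Bridge.vert_bij p q r).2 u
          obtain ⟨v, rfl⟩ := (Bridge.vert_bij p q r).2 v
          have hz1 : G.Adj (Bridge.vert p q r u) (Bridge.vert p q r v) := hz
          have hz' := hvle _ _ hz1
          rcases u with a | b | c <;> rcases v with a' | b' | c'
          · exact hz'.elim
          · exact ⟨Sum.inl (a, Sum.inl b'), rfl⟩
          · exact ⟨Sum.inl (a, Sum.inr c'), rfl⟩
          · exact ⟨Sum.inl (a', Sum.inl b), Subtype.ext Sym2.eq_swap⟩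
          · exact hz'.elim
          · exact ⟨Sum.inr ⟨(b, c'), hz1⟩, rfl⟩
          · exact ⟨Sum.inl (a', Sum.inr c), Subtype.ext Sym2.eq_swap⟩
          · exact ⟨Sum.inr ⟨(b', c), G.adj_symm hz1⟩, Subtype.ext Sym2.eq_swap⟩
          · exact hz'.elim
      have := Nat.card_le_card_of_surjective f hf
      simpa using this
    unfold euler
    set NF := Nat.card (Quotient (Equiv.Perm.SameCycle.setoid
      (Bridge.rotP hC hR G (Bridge.vertE p q r).symm hadj * Function.Involutive.toPerm SimpleGraph.Dart.symm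
        SimpleGraph.Dart.symm_involutive)))
    set NE := Nat.card G.edgeSet
    set NP := Nat.card P
    have hV : Nat.card (Vert p q r) = p + (q + r) := by
      rw [← Nat.card_congr (Bridge.vertE p q r)]
      simp
    rw [hV]
    have hgen := Bridge.gen_le p (q + r) hp hqr
    have e : ((q : ℚ) + (r : ℚ) - 2) = (((q + r : ℕ) : ℚ) - 2) := by push_cast; ring
    rw [e]
    set g := ⌈((p : ℚ) - 2) * (((q + r : ℕ) : ℚ) - 2) / 4⌉
    have hFt : (p * (q + r) + 2 : ℤ) - p - (q + r) - 2 * gen p (q + r) ≤ Ft p (q + r) := by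
      unfold Ft
      have : p * (q + r) + 2 ≤ (p * (q + r) + 2 - p - (q + r) - 2 * gen p (q + r)) + p + (q + r) +
          2 * gen p (q + r) := by
        omega
      zify at this
      linarith
    have key' : (ncyc R.face : ℤ) + NP ≤ NF := by exact_mod_cast key
    have hE' : (NE : ℤ) ≤ p * (q + r) + NP := by exact_mod_cast hE
    have hF' : (Ft p (q + r) : ℤ) ≤ ncyc R.face := by exact_mod_cast hF
    push_cast
    linarith

open Classical in
lemma lower (p q r : ℕ) (hqp : q ≤ p) (hrq : r ≤ q) (hp : 2 ≤ p) (hqr : 2 ≤ q + r)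
    (G : SimpleGraph (Vert p q r)) (hG : IsBetween G) (σ : Equiv.Perm G.Dart)
    (hσ : IsRotation G σ) :
    euler G σ ≤ 2 - 2 * ⌈((p : ℚ) - 2) * ((q : ℚ) + (r : ℚ) - 2) / 4⌉ := by
  obtain ⟨hσ, ht⟩ := hσ
  obtain ⟨hle, hge⟩ := hG
  have hadj0 : ∀ u v : Vert p q r, (u.1 = 0 ∨ v.1 = 0) → u.1 ≠ v.1 → G.Adj u v := by
    intro u v h h'
    rcases h with h | h
    · exact hge u v h (fun h'' => h' (h.trans h''.symm))
    · exact G.adj_symm (hge v u h (fun h'' => h' (h''.trans h.symm)))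
  -- every vertex has two neighbours
  have hdeg : ∀ v w, ∃ w', w' ≠ w ∧ G.Adj v w' := by
    intro v w
    have key : ∀ w₁ w₂ : Vert p q r, w₁ ≠ w₂ → G.Adj v w₁ → G.Adj v w₂ →
        ∃ w', w' ≠ w ∧ G.Adj v w' := by
      intro w₁ w₂ h12 h1 h2
      by_cases h : w₁ = w
      · exact ⟨w₂, fun h' => h12 (h.trans h'.symm), h2⟩
      · exact ⟨w₁, h, h1⟩
    by_cases hv : v.1 = 0
    · by_cases hq : 2 ≤ q
      · refine key ⟨1, ⟨0, by simp; omega⟩⟩ ⟨1, ⟨1, by simp; omega⟩⟩ ?_ ?_ ?_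
        · intro h
          have h1 := congrArg (fun u : Vert p q r => (u.2 : ℕ)) h
          simp at h1
        · refine hadj0 _ _ (Or.inl hv) ?_
          rw [hv]; change (0 : Fin 3) ≠ 1; decide
        · refine hadj0 _ _ (Or.inl hv) ?_
          rw [hv]; change (0 : Fin 3) ≠ 1; decide
      · have h1 : q = 1 := by omega
        have h2 : r = 1 := by omega
        subst h1 h2
        refine key ⟨1, ⟨0, by simp⟩⟩ ⟨2, ⟨0, by simp⟩⟩ ?_ ?_ ?_
        · intro h
          have h1 := congrArg (fun u : Vert p 1 1 => u.1) h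
          change (1 : Fin 3) = 2 at h1
          exact absurd h1 (by decide)
        · refine hadj0 _ _ (Or.inl hv) ?_
          rw [hv]; change (0 : Fin 3) ≠ 1; decide
        · refine hadj0 _ _ (Or.inl hv) ?_
          rw [hv]; change (0 : Fin 3) ≠ 2; decide
    · refine key ⟨0, ⟨0, by simp; omega⟩⟩ ⟨0, ⟨1, by simp; omega⟩⟩ ?_ (hadj0 _ _ (Or.inr rfl) hv)
        (hadj0 _ _ (Or.inr rfl) hv)
      intro h
      have h1 := congrArg (fun u : Vert p q r => (u.2 : ℕ)) h
      simp at h1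
  have hdeg' : ∀ v, ∃ w, G.Adj v w := fun v => by
    obtain ⟨w, _, hw⟩ := hdeg v v
    exact ⟨w, hw⟩
  have hev := even_euler G σ hσ ht hdeg'
  have hwt := faces_weight G σ hσ ht hdeg
    (fun d => if d.fst.1 ≠ 0 ∧ d.snd.1 ≠ 0 then 2 else 1)
    (fun d => by split_ifs <;> omega)
    (by
      intro d₁ d₂ d₃ h1 h2 h3
      have a1 := hle _ _ d₁.adj
      have a2 := hle _ _ d₂.adj
      have a3 := hle _ _ d₃.adj
      change d₁.fst.1 ≠ d₁.snd.1 at a1
      change d₂.fst.1 ≠ d₂.snd.1 at a2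
      change d₃.fst.1 ≠ d₃.snd.1 at a3
      simp only [h1, h2, h3] at a1 a2 a3 ⊢
      generalize d₁.fst.1 = x at *
      generalize d₂.fst.1 = y at *
      generalize d₃.fst.1 = z at *
      revert a1 a2 a3
      revert x y z
      decide)
  -- the darts with an end in the class `0`
  have hbip : ∑ d : G.Dart, (if d.fst.1 ≠ 0 ∧ d.snd.1 ≠ 0 then 0 else 1) = 2 * (p * (q + r)) := by
    rw [sum_dart G (fun u v => if u.1 ≠ 0 ∧ v.1 ≠ 0 then 0 else 1)]
    have e : ∀ u v : Vert p q r, (if G.Adj u v then (if u.1 ≠ 0 ∧ v.1 ≠ 0 then 0 else 1) else 0) =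
        (if u.1 ≠ v.1 then (if u.1 ≠ 0 ∧ v.1 ≠ 0 then 0 else 1) else 0) := by
      intro u v
      by_cases h0 : u.1 ≠ 0 ∧ v.1 ≠ 0
      · simp [h0]
      · rw [if_neg h0]
        have h1 : u.1 = 0 ∨ v.1 = 0 := by
          by_contra h2
          exact h0 ⟨fun h => h2 (Or.inl h), fun h => h2 (Or.inr h)⟩
        by_cases h2 : u.1 = v.1
        · rw [if_neg (fun h => hle _ _ h h2), if_neg (not_not.2 h2)]
        · rw [if_pos (hadj0 u v h1 h2), if_pos h2]
    have hs : ∀ g : Fin 3 → Fin 3 → ℕ, ∑ u : Vert p q r, ∑ v : Vert p q r, g u.1 v.1 =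
        p * (p * g 0 0 + q * g 0 1 + r * g 0 2) + q * (p * g 1 0 + q * g 1 1 + r * g 1 2) +
          r * (p * g 2 0 + q * g 2 1 + r * g 2 2) := by
      intro g
      rw [Fintype.sum_sigma]
      simp only [Fintype.sum_sigma, Fin.sum_univ_three, Finset.sum_const, Finset.card_univ,
        Fintype.card_fin, smul_eq_mul]
      simp
    simp only [e]
    rw [hs (fun i j => if i ≠ j then (if i ≠ 0 ∧ j ≠ 0 then 0 else 1) else 0)]
    simp
    ring
  set c := ∑ d : G.Dart, (if d.fst.1 ≠ 0 ∧ d.snd.1 ≠ 0 then 1 else 0) with hc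
  have hcard : Nat.card G.Dart = 2 * (p * (q + r)) + c := by
    rw [Nat.card_eq_fintype_card, ← hbip, hc, ← Finset.sum_add_distrib, ← Finset.card_univ,
      Finset.card_eq_sum_ones]
    refine Finset.sum_congr rfl fun d _ => ?_
    split_ifs <;> rfl
  have hw2 : ∑ d : G.Dart, (if d.fst.1 ≠ 0 ∧ d.snd.1 ≠ 0 then 2 else 1) =
      2 * (p * (q + r)) + 2 * c := by
    rw [← hbip, hc, Finset.mul_sum, ← Finset.sum_add_distrib]
    refine Finset.sum_congr rfl fun d _ => ?_
    split_ifs <;> rfl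
  have hE := card_dart G
  rw [hcard] at hE
  have hV : Nat.card (Vert p q r) = p + q + r := by
    rw [Nat.card_eq_fintype_card, Fintype.card_sigma]
    simp [Fin.sum_univ_three]
  have hF : Nat.card (Quotient (Equiv.Perm.SameCycle.setoid
      (σ * Function.Involutive.toPerm SimpleGraph.Dart.symm
        SimpleGraph.Dart.symm_involutive))) = ncyc (σ * al G) := rfl
  unfold euler
  rw [hF]
  rw [hV] at hev ⊢
  rw [hw2] at hwt
  obtain ⟨k, hk⟩ := hev
  have hk' := hk
  push_cast at hk'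
  have hwt' : (4 : ℤ) * ncyc (σ * al G) ≤ 2 * (p * (q + r)) + 2 * c := by
    exact_mod_cast hwt
  have hE' : 2 * ((p : ℤ) * (q + r)) + c = 2 * (Nat.card G.edgeSet : ℤ) := by exact_mod_cast hE
  have hg : ⌈((p : ℚ) - 2) * ((q : ℚ) + (r : ℚ) - 2) / 4⌉ ≤ 1 - k := by
    rw [Int.ceil_le]
    have h1 : ((p : ℤ) - 2) * (q + r - 2) ≤ 4 * (1 - k) := by
      nlinarith
    have h2 : ((p : ℚ) - 2) * (q + r - 2) ≤ 4 * (1 - k) := by exact_mod_cast h1
    push_cast
    linarith
  rw [hk]
  linarith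

/-- For `p ≥ q ≥ r` with `p ≥ 2` and `q + r ≥ 2`, every graph between `K_{p,q+r}` and `K_{p,q,r}` has orientable
genus `⌈(p-2)(q+r-2)/4⌉`: some rotation system has Euler characteristic `2 - 2⌈(p-2)(q+r-2)/4⌉`
and no rotation system has a larger one. In particular, this holds for `K_{p,q,r}`. -/
theorem result (p q r : ℕ) (hqp : q ≤ p) (hrq : r ≤ q) (hp : 2 ≤ p) (hqr : 2 ≤ q + r)
    (G : SimpleGraph (Vert p q r)) (hG : IsBetween G) :
    (∃ σ : Equiv.Perm G.Dart, IsRotation G σ ∧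
      euler G σ = 2 - 2 * ⌈((p : ℚ) - 2) * ((q : ℚ) + (r : ℚ) - 2) / 4⌉) ∧
    ∀ σ : Equiv.Perm G.Dart, IsRotation G σ →
      euler G σ ≤ 2 - 2 * ⌈((p : ℚ) - 2) * ((q : ℚ) + (r : ℚ) - 2) / 4⌉ := by
  refine ⟨?_, fun σ hσ => lower p q r hqp hrq hp hqr G hG σ hσ⟩
  obtain ⟨σ, h1, h2⟩ := upper p q r hp hqr (all_emb p q r hqp hrq hp hqr) G hG
  exact ⟨σ, h1, le_antisymm (lower p q r hqp hrq hp hqr G hG σ h1) h2⟩

end Pool.Agent.Results.MP_43c969_co.BetweenBipartiteAndTripartite
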